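import Pool.Agent.LinU.PD

/-!
# Orders of invertible matrices and of bijective affine maps

The powers of a matrix `A` of size `N` over a finite commutative ring with `q` elements are
combinations of `1, A, …, A ^ (N - 1)`. So there are at most `q ^ N` of them, and an invertible
matrix has an order of at most `q ^ N`. A bijective affine map of `(ℤ/m)^N` has an order of at most
`m ^ (N + 1)`.
-/

set_option autoImplicit false

namespace Pool.Agent.H71Or

open Finset Pool.Agent.LinU

section Mat

variable {R : Type*} [CommRing R] [Fintype R] {N : ℕ}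

omit [Fintype R] in
/-- The powers of `A` are combinations of the first `N` ones. -/
theorem pow_comb [Nontrivial R] (hN : 0 < N) (A : Matrix (Fin N) (Fin N) R) (j : ℕ) :
    ∃ c : Fin N → R, A ^ j = ∑ i : Fin N, c i • A ^ (i : ℕ) := by
  obtain ⟨χ, hχ⟩ : ∃ χ, χ = A.charpoly := ⟨_, rfl⟩
  have hmon : χ.Monic := hχ ▸ A.charpoly_monic
  have hdeg : χ.natDegree = N := by rw [hχ, Matrix.charpoly_natDegree_eq_dim, Fintype.card_fin]
  have h1 : χ ≠ 1 := by
    intro h
    rw [h, Polynomial.natDegree_one] at hdeg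
    omega
  have h2 : ((Polynomial.X : Polynomial R) ^ j %ₘ χ).natDegree < N := by
    rw [← hdeg]
    exact Polynomial.natDegree_modByMonic_lt _ hmon h1
  have h3 : Polynomial.aeval A ((Polynomial.X : Polynomial R) ^ j %ₘ χ) = A ^ j := by
    have h4 := Polynomial.modByMonic_add_div ((Polynomial.X : Polynomial R) ^ j) χ
    have h5 := congrArg (Polynomial.aeval A) h4
    rw [map_add, map_mul, map_pow, Polynomial.aeval_X] at h5
    rw [← h5, hχ, Matrix.aeval_self_charpoly, zero_mul, add_zero]
  refine ⟨fun i => ((Polynomial.X : Polynomial R) ^ j %ₘ χ).coeff i, ?_⟩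
  rw [← h3, Polynomial.aeval_eq_sum_range' h2, Finset.sum_range]

/-- The order of an invertible matrix of size `N` is at most `q ^ N`. -/
theorem exists_pow_eq_one {A : Matrix (Fin N) (Fin N) R} (hA : IsUnit A) :
    ∃ e, 0 < e ∧ e ≤ Fintype.card R ^ N ∧ A ^ e = 1 := by
  classical
  rcases Nat.eq_zero_or_pos N with hN | hN
  · subst hN
    exact ⟨1, one_pos, by simp, Subsingleton.elim _ _⟩
  rcases subsingleton_or_nontrivial R with hR | hR
  · refine ⟨1, one_pos, Nat.one_le_iff_ne_zero.2 (pow_ne_zero _ Fintype.card_ne_zero), ?_⟩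
    exact Matrix.ext fun i j => Subsingleton.elim _ _
  choose c hc using pow_comb hN A
  have hcard : (Finset.univ : Finset (Fin N → R)).card <
      (Finset.range (Fintype.card R ^ N + 1)).card := by
    rw [Finset.card_univ, Fintype.card_fun, Fintype.card_fin, Finset.card_range]
    exact Nat.lt_succ_self _
  obtain ⟨i, hi, j, hj, hij, heq⟩ := Finset.exists_ne_map_eq_of_card_lt_of_maps_to hcard
    (f := c) (fun _ _ => Finset.mem_coe.2 (Finset.mem_univ _))
  rw [Finset.mem_range] at hi hj
  have key : ∀ i j, i < j → j ≤ Fintype.card R ^ N → c i = c j →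
      ∃ e, 0 < e ∧ e ≤ Fintype.card R ^ N ∧ A ^ e = 1 := by
    intro i j hij hj heq
    have h1 : A ^ i = A ^ j := by rw [hc i, hc j, heq]
    refine ⟨j - i, by omega, by omega, ?_⟩
    have h2 : A ^ i * A ^ (j - i) = A ^ i * 1 := by
      rw [← pow_add, mul_one, Nat.add_sub_cancel' hij.le, h1]
    exact (hA.pow i).mul_left_cancel h2
  rcases Nat.lt_or_gt_of_ne hij with h | h
  · exact key i j h (by omega) heq
  · exact key j i h (by omega) heq.symm

/-- An injective affine map has an invertible linear part. -/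
theorem isUnit_of_inj {A : Matrix (Fin N) (Fin N) R} {b : Fin N → R}
    (h : Function.Injective fun v => A.mulVec v + b) : IsUnit A := by
  have h1 : Function.Injective A.mulVec := fun v w hvw => h (by simp only [hvw])
  have h2 : Function.Surjective A.mulVec := Finite.surjective_of_injective h1
  exact Matrix.mulVec_surjective_iff_isUnit.1 h2

omit [Fintype R] in
/-- The iterates of an affine map. -/
theorem iter_aff (A : Matrix (Fin N) (Fin N) R) (b : Fin N → R) (e : ℕ) :
    ∃ d : Fin N → R, ∀ v, (fun v => A.mulVec v + b)^[e] v = (A ^ e).mulVec v + d := by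
  induction e with
  | zero => exact ⟨0, fun v => by simp⟩
  | succ e ih =>
    obtain ⟨d, hd⟩ := ih
    refine ⟨A.mulVec d + b, fun v => ?_⟩
    rw [Function.iterate_succ_apply', hd, Matrix.mulVec_add, pow_succ', ← Matrix.mulVec_mulVec,
      add_assoc]

/-- An injective affine map of `R ^ N` has an order of at most `q ^ (N + 1)`. -/
theorem exists_iter_eq {A : Matrix (Fin N) (Fin N) R} {b : Fin N → R}
    (h : Function.Injective fun v => A.mulVec v + b) :
    ∃ e, 0 < e ∧ e ≤ Fintype.card R ^ (N + 1) ∧ ∀ v, (fun v => A.mulVec v + b)^[e] v = v := by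
  obtain ⟨e, he, hle, h1⟩ := exists_pow_eq_one (isUnit_of_inj h)
  obtain ⟨d, hd⟩ := iter_aff A b e
  have h2 : ∀ v, (fun v => A.mulVec v + b)^[e] v = v + d := fun v => by
    rw [hd v, h1, Matrix.one_mulVec]
  have h3 : ∀ i v, (fun v => A.mulVec v + b)^[e * i] v = v + i • d := by
    intro i
    induction i with
    | zero => intro v; simp
    | succ i ih =>
      intro v
      rw [Nat.mul_succ, Nat.add_comm, Function.iterate_add_apply, ih, h2, succ_nsmul, add_assoc]
  refine ⟨e * Fintype.card R, Nat.mul_pos he Fintype.card_pos, ?_, fun v => ?_⟩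
  · rw [pow_succ]
    exact Nat.mul_le_mul_right _ hle
  · rw [h3]
    have h4 : Fintype.card R • d = 0 := by
      funext i
      rw [Pi.smul_apply, Pi.zero_apply]
      exact card_nsmul_eq_zero
    rw [h4, add_zero]

end Mat

/-! ### Codes -/

private theorem vecOf_inj' {m N a b : ℕ} (hm : 0 < m) (ha : a < m ^ N) (hb : b < m ^ N)
    (h : vecOf m N a = vecOf m N b) : a = b := by
  refine dg_ext ha hb fun i hi => ?_
  have h1 : ((dg m a i : ℕ) : ZMod m) = (dg m b i : ZMod m) := congrFun h ⟨i, hi⟩
  rw [ZMod.natCast_eq_natCast_iff', Nat.mod_eq_of_lt (dg_lt hm _ _),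
    Nat.mod_eq_of_lt (dg_lt hm _ _)] at h1
  exact h1

private theorem exists_code {m N : ℕ} (hm : 0 < m) (x : Fin N → ZMod m) :
    ∃ z, z < m ^ N ∧ vecOf m N z = x := by
  haveI : NeZero m := ⟨hm.ne'⟩
  have h1 : ∀ i < N, (if h : i < N then (x ⟨i, h⟩).val else 0) < m := by
    intro i hi
    rw [dif_pos hi]
    exact ZMod.val_lt _
  refine ⟨_, lt_code hm (fun i => if h : i < N then (x ⟨i, h⟩).val else 0) h1, ?_⟩
  funext i
  show ((dg m _ i : ℕ) : ZMod m) = x i
  rw [dg_code hm _ h1 i.2, dif_pos i.2]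
  exact ZMod.natCast_zmod_val _

/-- A map of the codes `z < m ^ N` which is affine over `ℤ/m` and injective has an order of at
most `m ^ (N + 1)`. -/
theorem exists_iter_code {m N : ℕ} (hm : 0 < m) {T : ℕ → ℕ}
    {A : Matrix (Fin N) (Fin N) (ZMod m)} {b : Fin N → ZMod m}
    (hT : ∀ z, z < m ^ N → T z < m ^ N)
    (hA : ∀ z, z < m ^ N → vecOf m N (T z) = A.mulVec (vecOf m N z) + b)
    (hinj : ∀ y z, y < m ^ N → z < m ^ N → T y = T z → y = z) :
    ∃ e, 0 < e ∧ e ≤ m ^ (N + 1) ∧ ∀ z, z < m ^ N → T^[e] z = z := by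
  haveI : NeZero m := ⟨hm.ne'⟩
  have h1 : Function.Injective fun v => A.mulVec v + b := by
    intro v w hvw
    obtain ⟨y, hy, rfl⟩ := exists_code hm v
    obtain ⟨z, hz, rfl⟩ := exists_code hm w
    have h2 : vecOf m N (T y) = vecOf m N (T z) := by rw [hA y hy, hA z hz]; exact hvw
    rw [hinj y z hy hz (vecOf_inj' hm (hT y hy) (hT z hz) h2)]
  obtain ⟨e, he, hle, h3⟩ := exists_iter_eq h1
  rw [ZMod.card] at hle
  refine ⟨e, he, hle, fun z hz => ?_⟩
  have h4 : ∀ i z, z < m ^ N → T^[i] z < m ^ N ∧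
      vecOf m N (T^[i] z) = (fun v => A.mulVec v + b)^[i] (vecOf m N z) := by
    intro i
    induction i with
    | zero => intro z hz; exact ⟨hz, rfl⟩
    | succ i ih =>
      intro z hz
      rw [Function.iterate_succ_apply, Function.iterate_succ_apply]
      have h5 := ih (T z) (hT z hz)
      exact ⟨h5.1, by rw [h5.2, hA z hz]⟩
  have h5 := h4 e z hz
  exact vecOf_inj' hm h5.1 hz (by rw [h5.2, h3])

end Pool.Agent.H71Or
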