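import Pool.Agent.H71Or.Ord

/-!
# Orders of invertible matrices over finite commutative rings
-/

set_option autoImplicit false

namespace Pool.Agent.H71Or

/-- The order of an invertible matrix over a finite commutative ring is at most `card R ^ N`. -/
theorem exists_pow_eq_one_of_inj {R : Type*} [CommRing R] [Finite R] {N : ℕ}
    {A : Matrix (Fin N) (Fin N) R} (hA : Function.Injective A.mulVec) :
    ∃ e, 0 < e ∧ e ≤ Nat.card R ^ N ∧ A ^ e = 1 := by
  have := Fintype.ofFinite R
  have h2 : Function.Surjective A.mulVec := Finite.surjective_of_injective hA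
  rw [Nat.card_eq_fintype_card]
  exact exists_pow_eq_one (Matrix.mulVec_surjective_iff_isUnit.1 h2)

end Pool.Agent.H71Or
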